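import Pool.Agent.Q194.DiscAlg
import Mathlib.Analysis.SpecialFunctions.Pow.Real

/-!
# An open semigroup in the disc algebra without a spectral radius formula

`S` consists of the functions `f` of the disc algebra without zeros on the unit circle which have
a continuous square root on the circle, or are the product of `z` and such a function on the circle
and have a zero in `|z| < 1 / 2`.
-/

set_option autoImplicit false

namespace Pool.Agent.Results.MP_b2b51b_an.NoLimit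

open Set Topology Filter Metric
open Pool.Agent.Q194.DiscAlg

/-! ### Square roots -/

/-- A continuous square root on `|w - 1| < 1`. -/
noncomputable def rt (w : ℂ) : ℂ := Complex.exp (Complex.log w / 2)

theorem rt_sq {w : ℂ} (hw : w ≠ 0) : rt w ^ 2 = w := by
  rw [rt, ← Complex.exp_nat_mul]
  have : ((2 : ℕ) : ℂ) * (Complex.log w / 2) = Complex.log w := by
    push_cast
    ring
  rw [this, Complex.exp_log hw]

theorem mem_slit {w : ℂ} (hw : ‖w - 1‖ < 1) : w ∈ Complex.slitPlane := by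
  left
  have h1 : |(w - 1).re| < 1 := (Complex.abs_re_le_norm _).trans_lt hw
  have h2 := abs_lt.1 h1
  simp only [Complex.sub_re, Complex.one_re] at h2
  linarith [h2.1]

theorem continuousOn_rt {q : ℂ → ℂ} {s : Set ℂ} (hq : ContinuousOn q s)
    (h : ∀ z ∈ s, ‖q z - 1‖ < 1) : ContinuousOn (fun z => rt (q z)) s := by
  unfold rt
  refine Complex.continuous_exp.comp_continuousOn (ContinuousOn.div_const ?_ _)
  exact hq.clog fun z hz => mem_slit (h z hz)

/-- The unit circle. -/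
abbrev TT : Set ℂ := sphere (0 : ℂ) 1

theorem TT_sub : TT ⊆ closedBall (0 : ℂ) 1 := sphere_subset_closedBall

/-- `f` has a continuous square root on the circle. -/
def HasRoot (f : ℂ → ℂ) : Prop := ∃ g : ℂ → ℂ, ContinuousOn g TT ∧ ∀ z ∈ TT, f z = g z ^ 2

/-- `f` is the product of `z` and a function with a continuous square root on the circle. -/
def HasOddRoot (f : ℂ → ℂ) : Prop := ∃ g : ℂ → ℂ, ContinuousOn g TT ∧ ∀ z ∈ TT, f z = z * g z ^ 2

theorem hasRoot_of_near {f h : ℂ → ℂ} (hf : HasRoot f) (hfc : ContinuousOn f TT)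
    (hhc : ContinuousOn h TT) (hfh : ∀ z ∈ TT, ‖h z - f z‖ < ‖f z‖) : HasRoot h := by
  obtain ⟨g, hg, hgf⟩ := hf
  have hf0 : ∀ z ∈ TT, f z ≠ 0 := by
    intro z hz h0
    have := hfh z hz
    rw [h0, norm_zero] at this
    exact absurd this (not_lt.2 (norm_nonneg _))
  have hq : ContinuousOn (fun z => h z / f z) TT := hhc.div hfc hf0
  have hq1 : ∀ z ∈ TT, ‖h z / f z - 1‖ < 1 := by
    intro z hz
    have h1 : h z / f z - 1 = (h z - f z) / f z := by
      have := hf0 z hz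
      field_simp
    rw [h1, norm_div, div_lt_one (norm_pos_iff.2 (hf0 z hz))]
    exact hfh z hz
  refine ⟨fun z => g z * rt (h z / f z), hg.mul (continuousOn_rt hq hq1), fun z hz => ?_⟩
  have hne : h z / f z ≠ 0 := Complex.slitPlane_ne_zero (mem_slit (hq1 z hz))
  rw [mul_pow, rt_sq hne, ← hgf z hz, mul_div_cancel₀ _ (hf0 z hz)]

theorem hasOddRoot_of_near {f h : ℂ → ℂ} (hf : HasOddRoot f) (hfc : ContinuousOn f TT)
    (hhc : ContinuousOn h TT) (hfh : ∀ z ∈ TT, ‖h z - f z‖ < ‖f z‖) : HasOddRoot h := by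
  obtain ⟨g, hg, hgf⟩ := hf
  have hz0 : ∀ z ∈ TT, z ≠ 0 := by
    intro z hz h0
    rw [mem_sphere_zero_iff_norm, h0, norm_zero] at hz
    exact zero_ne_one hz
  have hzn : ∀ z ∈ TT, ‖z‖ = 1 := fun z hz => mem_sphere_zero_iff_norm.1 hz
  have h1 : HasRoot (fun z => z⁻¹ * h z) := by
    refine hasRoot_of_near (f := fun z => z⁻¹ * f z) ⟨g, hg, fun z hz => ?_⟩ ?_ ?_ ?_
    · change z⁻¹ * f z = _
      rw [hgf z hz, inv_mul_cancel_left₀ (hz0 z hz)]
    · exact (continuousOn_id.inv₀ hz0).mul hfc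
    · exact (continuousOn_id.inv₀ hz0).mul hhc
    · intro z hz
      rw [← mul_sub, norm_mul, norm_mul, norm_inv, hzn z hz, inv_one, one_mul, one_mul]
      exact hfh z hz
  obtain ⟨k, hk, hkh⟩ := h1
  refine ⟨k, hk, fun z hz => ?_⟩
  rw [← hkh z hz, mul_inv_cancel_left₀ (hz0 z hz)]

/-- The coordinate function has no continuous square root on the circle. -/
theorem no_root : ¬ ∃ g : ℂ → ℂ, ContinuousOn g TT ∧ ∀ z ∈ TT, z = g z ^ 2 := by
  rintro ⟨g, hg, hgz⟩
  let γ : ℝ → ℂ := fun t => Complex.exp (t * Complex.I)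
  have hγ : ∀ t, γ t ∈ TT := fun t => by
    rw [mem_sphere_zero_iff_norm]
    exact Complex.norm_exp_ofReal_mul_I t
  have hγc : Continuous γ := by fun_prop
  let φ : ℝ → ℂ := fun t => g (γ t) * Complex.exp (-(t / 2 * Complex.I))
  have hφc : Continuous φ := by
    refine Continuous.mul ?_ (by fun_prop)
    exact hg.comp_continuous hγc hγ
  have hφ2 : ∀ t, φ t ^ 2 = 1 := by
    intro t
    have h1 : g (γ t) ^ 2 = Complex.exp (t * Complex.I) := (hgz (γ t) (hγ t)).symm
    change (g (γ t) * Complex.exp (-(t / 2 * Complex.I))) ^ 2 = 1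
    rw [mul_pow, h1, ← Complex.exp_nat_mul, ← Complex.exp_add]
    have : (t : ℂ) * Complex.I + ((2 : ℕ) : ℂ) * (-(t / 2 * Complex.I)) = 0 := by
      push_cast
      ring
    rw [this, Complex.exp_zero]
  have hφ1 : ∀ t, (φ t).re ≠ 0 := by
    intro t
    have h1 : (φ t - 1) * (φ t + 1) = 0 := by linear_combination hφ2 t
    rcases mul_eq_zero.1 h1 with h | h
    · rw [sub_eq_zero.1 h]
      simp
    · rw [eq_neg_of_add_eq_zero_left h]
      simp
  have h0 : φ (2 * Real.pi) = - φ 0 := by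
    have h1 : γ (2 * Real.pi) = γ 0 := by
      change Complex.exp (((2 * Real.pi : ℝ) : ℂ) * Complex.I) = Complex.exp (((0 : ℝ) : ℂ) * Complex.I)
      push_cast
      rw [Complex.exp_two_pi_mul_I, zero_mul, Complex.exp_zero]
    change g (γ (2 * Real.pi)) * Complex.exp (-(((2 * Real.pi : ℝ) : ℂ) / 2 * Complex.I)) =
      -(g (γ 0) * Complex.exp (-(((0 : ℝ) : ℂ) / 2 * Complex.I)))
    have h2 : Complex.exp (-(((2 * Real.pi : ℝ) : ℂ) / 2 * Complex.I)) = -1 := by
      rw [Complex.exp_neg]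
      have : ((2 * Real.pi : ℝ) : ℂ) / 2 * Complex.I = Real.pi * Complex.I := by
        push_cast
        ring
      rw [this, Complex.exp_pi_mul_I]
      norm_num
    rw [h1, h2]
    simp
  have hre : Continuous fun t => (φ t).re := Complex.continuous_re.comp hφc
  have hzero : ∃ t, (φ t).re = 0 := by
    have h1 : (φ (2 * Real.pi)).re = - (φ 0).re := by rw [h0, Complex.neg_re]
    rcases le_total (φ 0).re 0 with h2 | h2
    · exact mem_range_of_exists_le_of_exists_ge hre ⟨0, h2⟩ ⟨2 * Real.pi, by rw [h1]; linarith⟩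
    · exact mem_range_of_exists_le_of_exists_ge hre ⟨2 * Real.pi, by rw [h1]; linarith⟩ ⟨0, h2⟩
  obtain ⟨t, ht⟩ := hzero
  exact hφ1 t ht

/-! ### Persistence of zeros -/

theorem zero_persists {F : ℂ → ℂ} (hF : DifferentiableOn ℂ F (ball 0 1)) {w : ℂ}
    (hw : ‖w‖ < 1 / 2) (hFw : F w = 0) {p : ℂ} (hp : ‖p‖ < 1) (hFp : F p ≠ 0) :
    ∃ m : ℝ, 0 < m ∧ ∀ G : ℂ → ℂ, DifferentiableOn ℂ G (ball 0 1) →
      (∀ z ∈ ball (0 : ℂ) 1, ‖G z - F z‖ < m) → ∃ v : ℂ, ‖v‖ < 1 / 2 ∧ G v = 0 := by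
  have hwb : w ∈ ball (0 : ℂ) 1 := by
    rw [mem_ball_zero_iff]
    linarith
  have han : AnalyticOnNhd ℂ F (ball 0 1) := hF.analyticOnNhd isOpen_ball
  have hiso : ∀ᶠ z in 𝓝[≠] w, F z ≠ 0 := by
    rcases (han w hwb).eventually_eq_zero_or_eventually_ne_zero with h | h
    · exfalso
      have h1 := han.eqOn_zero_of_preconnected_of_eventuallyEq_zero
        (convex_ball (0 : ℂ) 1).isPreconnected hwb h
      exact hFp (h1 (by rwa [mem_ball_zero_iff]))
    · exact h
  rw [eventually_nhdsWithin_iff, Metric.eventually_nhds_iff] at hiso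
  obtain ⟨ε, hε, hiso⟩ := hiso
  set r : ℝ := min (ε / 2) ((1 / 2 - ‖w‖) / 2) with hr
  have hr0 : 0 < r := lt_min (by positivity) (by linarith)
  have hrε : r < ε := lt_of_le_of_lt (min_le_left _ _) (by linarith)
  have hrw : ‖w‖ + r < 1 / 2 := by
    have := min_le_right (ε / 2) ((1 / 2 - ‖w‖) / 2)
    rw [← hr] at this
    linarith
  have hin : ∀ z ∈ closedBall w r, ‖z‖ < 1 / 2 := by
    intro z hz
    rw [mem_closedBall, dist_eq_norm] at hz
    calc ‖z‖ = ‖w + (z - w)‖ := by congr 1; ring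
      _ ≤ ‖w‖ + ‖z - w‖ := norm_add_le _ _
      _ < 1 / 2 := by linarith
  have hin' : closedBall w r ⊆ ball (0 : ℂ) 1 := fun z hz => by
    rw [mem_ball_zero_iff]
    linarith [hin z hz]
  -- the minimum on the small circle
  have hsne : (sphere w r).Nonempty := NormedSpace.sphere_nonempty.2 hr0.le
  have hcont : ContinuousOn (fun z => ‖F z‖) (sphere w r) :=
    (hF.continuousOn.mono (sphere_subset_closedBall.trans hin')).norm
  obtain ⟨z₀, hz₀, hmin⟩ := (isCompact_sphere w r).exists_isMinOn hsne hcont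
  have hm : 0 < ‖F z₀‖ := by
    rw [norm_pos_iff]
    rw [mem_sphere, dist_eq_norm] at hz₀
    refine hiso (by rw [dist_eq_norm, hz₀]; exact hrε) ?_
    intro h
    rw [mem_singleton_iff] at h
    rw [h, sub_self, norm_zero] at hz₀
    linarith
  refine ⟨‖F z₀‖ / 2, by positivity, fun G hG hGF => ?_⟩
  by_contra hcon
  push Not at hcon
  have hG0 : ∀ z ∈ closedBall w r, G z ≠ 0 := fun z hz => hcon z (hin z hz)
  have hd : DiffContOnCl ℂ (fun z => (G z)⁻¹) (ball w r) := by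
    refine DifferentiableOn.diffContOnCl ?_
    rw [closure_ball w hr0.ne']
    exact (hG.mono hin').inv hG0
  have hb := Complex.norm_le_of_forall_mem_frontier_norm_le isBounded_ball hd
    (C := 2 / ‖F z₀‖) (fun z hz => by
      rw [frontier_ball w hr0.ne'] at hz
      have hz1 := hmin hz
      have hz2 := hGF z (hin' (sphere_subset_closedBall hz))
      have hz3 : ‖F z₀‖ / 2 ≤ ‖G z‖ := by
        have h1 : ‖F z‖ - ‖G z‖ ≤ ‖G z - F z‖ := by
          rw [norm_sub_rev]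
          exact norm_sub_norm_le _ _
        have h2 : ‖F z₀‖ ≤ ‖F z‖ := hz1
        linarith
      rw [norm_inv]
      calc ‖G z‖⁻¹ ≤ (‖F z₀‖ / 2)⁻¹ := inv_anti₀ (by positivity) hz3
        _ = 2 / ‖F z₀‖ := by rw [inv_div]) (subset_closure (mem_ball_self hr0))
  have hw2 := hGF w hwb
  rw [hFw, sub_zero] at hw2
  have hGw : 0 < ‖G w‖ := norm_pos_iff.2 (hG0 w (mem_closedBall_self hr0.le))
  rw [norm_inv] at hb
  have h1 : 1 ≤ 2 / ‖F z₀‖ * ‖G w‖ := by
    calc (1 : ℝ) = ‖G w‖⁻¹ * ‖G w‖ := (inv_mul_cancel₀ hGw.ne').symm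
      _ ≤ _ := mul_le_mul_of_nonneg_right hb hGw.le
  have h2 : 2 / ‖F z₀‖ * ‖G w‖ < 1 := by
    rw [div_mul_eq_mul_div, div_lt_one hm]
    linarith
  linarith

/-! ### The semigroup -/

/-- The open semigroup. -/
def SS : Set DA := {f | (∀ z ∈ TT, ev f z ≠ 0) ∧
  (HasRoot (ev f) ∨ (HasOddRoot (ev f) ∧ ∃ w : ℂ, ‖w‖ < 1 / 2 ∧ ev f w = 0))}

theorem continuousOn_TT (f : DA) : ContinuousOn (ev f) TT := (continuousOn_ev f).mono TT_sub

theorem SS_mul {f g : DA} (hf : f ∈ SS) (hg : g ∈ SS) : f * g ∈ SS := by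
  obtain ⟨hf0, hf⟩ := hf
  obtain ⟨hg0, hg⟩ := hg
  refine ⟨fun z hz => ?_, ?_⟩
  · rw [ev_mul]
    exact mul_ne_zero (hf0 z hz) (hg0 z hz)
  · rcases hf with ⟨a, ha, haf⟩ | ⟨⟨a, ha, haf⟩, w, hw, hfw⟩
    · rcases hg with ⟨b, hb, hbg⟩ | ⟨⟨b, hb, hbg⟩, v, hv, hgv⟩
      · left
        refine ⟨fun z => a z * b z, ha.mul hb, fun z hz => ?_⟩
        rw [ev_mul, haf z hz, hbg z hz]
        ring
      · right
        refine ⟨⟨fun z => a z * b z, ha.mul hb, fun z hz => ?_⟩, v, hv, ?_⟩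
        · rw [ev_mul, haf z hz, hbg z hz]
          ring
        · rw [ev_mul, hgv, mul_zero]
    · rcases hg with ⟨b, hb, hbg⟩ | ⟨⟨b, hb, hbg⟩, v, hv, hgv⟩
      · right
        refine ⟨⟨fun z => a z * b z, ha.mul hb, fun z hz => ?_⟩, w, hw, ?_⟩
        · rw [ev_mul, haf z hz, hbg z hz]
          ring
        · rw [ev_mul, hfw, zero_mul]
      · left
        refine ⟨fun z => z * (a z * b z), continuousOn_id.mul (ha.mul hb), fun z hz => ?_⟩
        rw [ev_mul, haf z hz, hbg z hz]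
        ring

theorem norm_ev_sub_le (f h : DA) (z : ℂ) : ‖ev h z - ev f z‖ ≤ dist h f := by
  rw [← ev_sub, dist_eq_norm]
  exact norm_ev_le _ _

theorem isOpen_SS : IsOpen SS := by
  rw [Metric.isOpen_iff]
  rintro f ⟨hf0, hf⟩
  -- the minimum of `|f|` on the circle
  obtain ⟨z₀, hz₀, hmin⟩ := (isCompact_sphere (0 : ℂ) 1).exists_isMinOn
    (NormedSpace.sphere_nonempty.2 zero_le_one) (continuousOn_TT f).norm
  have hm : 0 < ‖ev f z₀‖ := norm_pos_iff.2 (hf0 z₀ hz₀)
  have hnear : ∀ h : DA, dist h f < ‖ev f z₀‖ → ∀ z ∈ TT, ‖ev h z - ev f z‖ < ‖ev f z‖ := by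
    intro h hh z hz
    exact (norm_ev_sub_le f h z).trans_lt (hh.trans_le (hmin hz))
  have hnear0 : ∀ h : DA, dist h f < ‖ev f z₀‖ → ∀ z ∈ TT, ev h z ≠ 0 := by
    intro h hh z hz h0
    have := hnear h hh z hz
    rw [h0, zero_sub, norm_neg] at this
    exact lt_irrefl _ this
  rcases hf with hf | ⟨hf, w, hw, hfw⟩
  · refine ⟨‖ev f z₀‖, hm, fun h hh => ⟨hnear0 h hh, Or.inl ?_⟩⟩
    exact hasRoot_of_near hf (continuousOn_TT f) (continuousOn_TT h) (hnear h hh)
  · -- a point of the open disc where `f` does not vanish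
    obtain ⟨p, hp, hfp⟩ : ∃ p : ℂ, ‖p‖ < 1 ∧ ev f p ≠ 0 := by
      by_contra hcon
      push Not at hcon
      have h1 : (1 : ℂ) ∈ TT := by rw [mem_sphere_zero_iff_norm, norm_one]
      have h2 : EqOn (ev f) 0 (closedBall 0 1) := by
        refine EqOn.of_subset_closure (s := ball 0 1) (fun z hz => ?_) (continuousOn_ev f)
          continuousOn_const ball_subset_closedBall ?_
        · exact hcon z (by rwa [mem_ball_zero_iff] at hz)
        · rw [closure_ball (0 : ℂ) one_ne_zero]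
      exact hf0 1 h1 (h2 (TT_sub h1))
    obtain ⟨m, hm0, hm1⟩ := zero_persists (differentiableOn_ev f) hw hfw hp hfp
    refine ⟨min ‖ev f z₀‖ m, lt_min hm hm0, fun h hh => ?_⟩
    have hh1 : dist h f < ‖ev f z₀‖ := lt_of_lt_of_le hh (min_le_left _ _)
    have hh2 : dist h f < m := lt_of_lt_of_le hh (min_le_right _ _)
    refine ⟨hnear0 h hh1, Or.inr ⟨?_, ?_⟩⟩
    · exact hasOddRoot_of_near hf (continuousOn_TT f) (continuousOn_TT h) (hnear h hh1)
    · exact hm1 (ev h) (differentiableOn_ev h) fun z _ => (norm_ev_sub_le f h z).trans_lt hh2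

theorem ev_zz_pow (n : ℕ) {z : ℂ} (hz : z ∈ closedBall (0 : ℂ) 1) : ev (zz ^ n) z = z ^ n := by
  rw [ev_pow zz n hz, ev_zz hz]

theorem norm_TT {z : ℂ} (hz : z ∈ TT) : ‖z‖ = 1 := mem_sphere_zero_iff_norm.1 hz

/-- The even powers are far from the complement. -/
theorem even_power (k : ℕ) : 1 ≤ infDist (zz ^ (2 * k)) SSᶜ := by
  have hne : (SSᶜ).Nonempty := ⟨0, fun h => h.1 1 (by rw [mem_sphere_zero_iff_norm, norm_one])
    (ev_zero 1)⟩
  rw [le_infDist hne]
  intro h hh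
  by_contra hcon
  push Not at hcon
  apply hh
  have hnorm : ∀ z ∈ TT, ‖ev (zz ^ (2 * k)) z‖ = 1 := by
    intro z hz
    rw [ev_zz_pow _ (TT_sub hz), norm_pow, norm_TT hz, one_pow]
  have hnear : ∀ z ∈ TT, ‖ev h z - ev (zz ^ (2 * k)) z‖ < ‖ev (zz ^ (2 * k)) z‖ := by
    intro z hz
    rw [hnorm z hz]
    refine (norm_ev_sub_le _ _ _).trans_lt ?_
    rwa [dist_comm]
  refine ⟨fun z hz h0 => ?_, Or.inl ?_⟩
  · have := hnear z hz
    rw [h0, zero_sub, norm_neg] at this
    exact lt_irrefl _ this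
  · refine hasRoot_of_near ⟨fun z => z ^ k, by fun_prop, fun z hz => ?_⟩ (continuousOn_TT _)
      (continuousOn_TT _) hnear
    rw [ev_zz_pow _ (TT_sub hz), ← pow_mul, mul_comm]

/-- The odd powers are close to the complement. -/
theorem odd_power (k : ℕ) : infDist (zz ^ (2 * k + 1)) SSᶜ ≤ (1 / 2) ^ (2 * k + 1) := by
  set n := 2 * k + 1 with hn
  set c : ℂ := (1 / 2 : ℂ) ^ n with hc
  have hcn : ‖c‖ = (1 / 2) ^ n := by
    rw [hc, norm_pow]
    simp
  set h : DA := zz ^ n - algebraMap ℂ DA c with hh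
  have hev : ∀ z ∈ closedBall (0 : ℂ) 1, ev h z = z ^ n - c := by
    intro z hz
    rw [hh, ev_sub, ev_zz_pow n hz, ev_algebraMap c hz]
  have hc1 : ‖c‖ < 1 := by
    rw [hcn]
    exact pow_lt_one₀ (by norm_num) (by norm_num) (by omega)
  have hmem : h ∈ SSᶜ := by
    rintro ⟨-, ⟨g, hg, hgh⟩ | ⟨-, w, hw, hw0⟩⟩
    · -- `h` has no continuous square root on the circle
      apply no_root
      have hz0 : ∀ z ∈ TT, z ≠ 0 := by
        intro z hz h0
        have := norm_TT hz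
        rw [h0, norm_zero] at this
        exact zero_ne_one this
      have hq : ContinuousOn (fun z => (z ^ n - c) / z ^ n) TT :=
        ContinuousOn.div (by fun_prop) (by fun_prop) fun z hz => pow_ne_zero n (hz0 z hz)
      have hq1 : ∀ z ∈ TT, ‖(z ^ n - c) / z ^ n - 1‖ < 1 := by
        intro z hz
        have h1 : (z ^ n - c) / z ^ n - 1 = -c / z ^ n := by
          have := pow_ne_zero n (hz0 z hz)
          field_simp
          ring
        rw [h1, norm_div, norm_neg, norm_pow z n, norm_TT hz, one_pow, div_one]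
        exact hc1
      have hrt0 : ∀ z ∈ TT, rt ((z ^ n - c) / z ^ n) ≠ 0 := fun z _ => Complex.exp_ne_zero _
      refine ⟨fun z => g z / (rt ((z ^ n - c) / z ^ n) * z ^ k), ?_, fun z hz => ?_⟩
      · refine hg.div ((continuousOn_rt hq hq1).mul (by fun_prop)) fun z hz => ?_
        exact mul_ne_zero (hrt0 z hz) (pow_ne_zero k (hz0 z hz))
      · have hne : (z ^ n - c) / z ^ n ≠ 0 := Complex.slitPlane_ne_zero (mem_slit (hq1 z hz))
        have h1 : g z ^ 2 = z ^ n - c := by rw [← hgh z hz, hev z (TT_sub hz)]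
        have h2 : z ^ n - c ≠ 0 := fun h0 => hne (by rw [h0, zero_div])
        rw [div_pow, mul_pow, rt_sq hne, h1]
        have h3 := hz0 z hz
        have h4 : z ^ n = z * (z ^ k) ^ 2 := by
          rw [hn, ← pow_mul, pow_succ, mul_comm k 2]
          ring
        have h5 : (z ^ n - c) / z ^ n * (z ^ k) ^ 2 = (z ^ n - c) / z := by
          rw [div_mul_eq_mul_div, div_eq_div_iff (pow_ne_zero n h3) h3]
          conv_rhs => rw [h4]
          ring
        rw [h5, div_div_cancel₀ h2]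
    · have hwm : w ∈ closedBall (0 : ℂ) 1 := by
        rw [mem_closedBall_zero_iff]
        linarith
      rw [hev w hwm] at hw0
      have h1 : ‖w‖ ^ n = (1 / 2) ^ n := by
        rw [← norm_pow, sub_eq_zero.1 hw0, hcn]
      have h2 : ‖w‖ ^ n < (1 / 2) ^ n := pow_lt_pow_left₀ hw (norm_nonneg _) (by omega)
      linarith
  refine (infDist_le_dist_of_mem hmem).trans ?_
  rw [dist_eq_norm, ← hcn]
  refine norm_le_of_ev (norm_nonneg _) fun z hz => ?_
  rw [ev_sub, hev z hz, ev_zz_pow n hz, sub_sub_cancel]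

theorem zz_mem_SS : zz ∈ SS := by
  refine ⟨fun z hz h0 => ?_, Or.inr ⟨⟨fun _ => 1, continuousOn_const, fun z hz => ?_⟩, 0, ?_, ?_⟩⟩
  · rw [ev_zz (TT_sub hz)] at h0
    have := norm_TT hz
    rw [h0, norm_zero] at this
    exact zero_ne_one this
  · rw [ev_zz (TT_sub hz)]
    ring
  · rw [norm_zero]
    norm_num
  · exact ev_zz (mem_closedBall_self zero_le_one)

/-- There are a commutative unital complex Banach algebra `A`, an open semigroup `S ≠ A` and an
element `a` of `S` such that `d (a ^ n) ^ (1 / n)` does not converge. -/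
theorem result :
    ∃ (A : Type) (_ : NormedCommRing A) (_ : NormedAlgebra ℂ A) (_ : CompleteSpace A)
      (_ : NormOneClass A) (S : Set A) (a : A),
      IsOpen S ∧ (∀ x ∈ S, ∀ y ∈ S, x * y ∈ S) ∧ S ≠ univ ∧ a ∈ S ∧
      (∀ n : ℕ, 0 < n → Even n → 1 ≤ infDist (a ^ n) Sᶜ ^ (1 / (n : ℝ))) ∧
      (∀ n : ℕ, Odd n → infDist (a ^ n) Sᶜ ^ (1 / (n : ℝ)) ≤ 1 / 2) ∧
      ¬ ∃ L : ℝ, Tendsto (fun n : ℕ => infDist (a ^ n) Sᶜ ^ (1 / (n : ℝ))) atTop (𝓝 L) := by
  have heven : ∀ n : ℕ, 0 < n → Even n → 1 ≤ infDist (zz ^ n) SSᶜ ^ (1 / (n : ℝ)) := by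
    intro n _ hn
    obtain ⟨k, rfl⟩ := hn.two_dvd
    exact Real.one_le_rpow (even_power k) (by positivity)
  have hodd : ∀ n : ℕ, Odd n → infDist (zz ^ n) SSᶜ ^ (1 / (n : ℝ)) ≤ 1 / 2 := by
    rintro n ⟨k, rfl⟩
    have h1 := odd_power k
    have hpos : (0 : ℝ) < ((2 * k + 1 : ℕ) : ℝ) := by positivity
    calc infDist (zz ^ (2 * k + 1)) SSᶜ ^ (1 / ((2 * k + 1 : ℕ) : ℝ))
        ≤ ((1 / 2 : ℝ) ^ (2 * k + 1)) ^ (1 / ((2 * k + 1 : ℕ) : ℝ)) :=
          Real.rpow_le_rpow infDist_nonneg h1 (by positivity)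
      _ = 1 / 2 := by
          rw [← Real.rpow_natCast, ← Real.rpow_mul (by norm_num), mul_one_div_cancel hpos.ne',
            Real.rpow_one]
  refine ⟨DA, inferInstance, inferInstance, inferInstance, inferInstance, SS, zz, isOpen_SS,
    fun x hx y hy => SS_mul hx hy, ?_, zz_mem_SS, heven, hodd, ?_⟩
  · intro h
    have h0 : (0 : DA) ∈ SS := by rw [h]; exact mem_univ _
    exact h0.1 1 (by rw [mem_sphere_zero_iff_norm, norm_one]) (ev_zero 1)
  · rintro ⟨L, hL⟩
    have h1 : 1 ≤ L := by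
      have h2 : Tendsto (fun k : ℕ => 2 * (k + 1)) atTop atTop :=
        tendsto_atTop_mono (fun k => by change k ≤ 2 * (k + 1); omega) tendsto_id
      exact ge_of_tendsto' (hL.comp h2) fun k => heven (2 * (k + 1)) (by omega) (even_two_mul _)
    have h3 : L ≤ 1 / 2 := by
      have h2 : Tendsto (fun k : ℕ => 2 * k + 1) atTop atTop :=
        tendsto_atTop_mono (fun k => by change k ≤ 2 * k + 1; omega) tendsto_id
      exact le_of_tendsto' (hL.comp h2) fun k => hodd _ (odd_two_mul_add_one k)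
    linarith

end Pool.Agent.Results.MP_b2b51b_an.NoLimit
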